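import Pool.Agent.H583Z.Rec.Sparse

set_option autoImplicit false

namespace Pool.Agent.Results.MP_c19a8f_an.APolyNonRecurrence

open Filter Topology

/-- For integral polynomials `p`, `q` of degree at least two there are two minimal
homeomorphisms `T`, `S` of one (non-empty) compact metric space such that no point `x` admits
integers `n i` with `|n i| → ∞`, `T ^ p (n i) x → x` and `S ^ q (n i) x → x`. -/
theorem result (p q : Polynomial ℤ) (hp : 2 ≤ p.natDegree) (hq : 2 ≤ q.natDegree) :
    ∃ (X : Type) (_ : MetricSpace X) (_ : CompactSpace X) (_ : Nonempty X) (T S : X ≃ₜ X),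
      (∀ x : X, Dense (Set.range fun n : ℤ => (T ^ n) x)) ∧
      (∀ x : X, Dense (Set.range fun n : ℤ => (S ^ n) x)) ∧
      ∀ x : X, ¬ ∃ n : ℕ → ℤ, Tendsto (fun i => |n i|) atTop atTop ∧
        Tendsto (fun i => (T ^ (p.eval (n i))) x) atTop (𝓝 x) ∧
        Tendsto (fun i => (S ^ (q.eval (n i))) x) atTop (𝓝 x) :=
  Pool.Agent.H583Z.Rec.poly_main p q hp hq

end Pool.Agent.Results.MP_c19a8f_an.APolyNonRecurrence
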